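import Pool.Agent.H174.GP.StE
import Pool.Agent.H174.GP.StA

/-!
# Project GP (helper174), statement `S_mid2`: middle coordinates, all conditions
-/

set_option autoImplicit false

open MeasureTheory ProbabilityTheory Finset Filter Topology

namespace Pool.Agent.H588.GP174

open Pool.Agent.H174.GP

/-- the flippable pairs have sum zero -/
theorem sum_X0 (D B d : ℕ) (hB : B ≤ D) (hd : 3 * D ≤ d) (σ : ℝ) (ω : ℕ → ℝ) :
    ∑ j ∈ Finset.Ioc B d, X0 D σ ω j = ∑ j ∈ Finset.Ioc B d, geo σ ω j := by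
  classical
  have hIP : ∀ i ∈ IP D σ ω, D < i ∧ i ≤ 2 * D := fun i hi =>
    Finset.mem_Ioc.1 (Finset.mem_filter.1 hi).1
  have hpr : ∀ i ∈ IP D σ ω, geo σ ω i + geo σ ω (i + D) = 0 := by
    intro i hi
    rcases (Finset.mem_filter.1 hi).2 with h | h
    · rw [h.1, h.2]; norm_num
    · rw [h.1, h.2]; norm_num
  have h : ∑ j ∈ Finset.Ioc B d,
      (if j ∈ IP D σ ω ∨ (D ≤ j ∧ j - D ∈ IP D σ ω) then geo σ ω j else 0) = 0 := by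
    rw [← Finset.sum_filter]
    have e : (Finset.Ioc B d).filter (fun j => j ∈ IP D σ ω ∨ (D ≤ j ∧ j - D ∈ IP D σ ω)) =
        IP D σ ω ∪ (IP D σ ω).image (fun i => i + D) := by
      ext j
      rw [Finset.mem_filter, Finset.mem_Ioc, Finset.mem_union, Finset.mem_image]
      constructor
      · rintro ⟨_, h | ⟨h1, h2⟩⟩
        · exact Or.inl h
        · exact Or.inr ⟨j - D, h2, Nat.sub_add_cancel h1⟩
      · rintro (h | ⟨i, hi, rfl⟩)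
        · have h1 := hIP j h
          exact ⟨⟨by omega, by omega⟩, Or.inl h⟩
        · have h1 := hIP i hi
          refine ⟨⟨by omega, by omega⟩, Or.inr ⟨by omega, ?_⟩⟩
          rw [Nat.add_sub_cancel]
          exact hi
    have hdis : Disjoint (IP D σ ω) ((IP D σ ω).image (fun i => i + D)) := by
      rw [Finset.disjoint_left]
      intro j hj hj2
      obtain ⟨i, hi, rfl⟩ := Finset.mem_image.1 hj2
      have h1 := hIP _ hj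
      have h2 := hIP _ hi
      omega
    rw [e, Finset.sum_union hdis, Finset.sum_image (fun i _ i' _ h => Nat.add_right_cancel h),
      ← Finset.sum_add_distrib]
    exact Finset.sum_eq_zero hpr
  have h2 : ∀ j ∈ Finset.Ioc B d, geo σ ω j =
      (if j ∈ IP D σ ω ∨ (D ≤ j ∧ j - D ∈ IP D σ ω) then geo σ ω j else 0) + X0 D σ ω j := by
    intro j _
    by_cases hj : j ∈ IP D σ ω ∨ (D ≤ j ∧ j - D ∈ IP D σ ω)
    · rw [if_pos hj, X0, if_pos hj, add_zero]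
    · rw [if_neg hj, X0, if_neg hj, zero_add]
  rw [Finset.sum_congr rfl h2, Finset.sum_add_distrib, h, zero_add]

theorem floor_le {η : ℝ} (hη4 : η < 1 / 4) {d : ℕ} (hd : 8 ≤ d) : ⌊η * d⌋₊ ≤ d / 3 := by
  refine Nat.floor_le_of_le ?_
  have h1 : (d : ℝ) ≤ 3 * ((d / 3 : ℕ) : ℝ) + 2 := by
    have : d ≤ 3 * (d / 3) + 2 := by omega
    exact_mod_cast this
  have h2 : (8 : ℝ) ≤ d := by exact_mod_cast hd
  nlinarith

theorem sq32 {d : ℕ} (R : ℝ) : (R * (d : ℝ) ^ (3 / 2 : ℝ)) ^ 2 = R ^ 2 * (d : ℝ) ^ 3 := by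
  rw [mul_pow, ← Real.rpow_natCast ((d : ℝ) ^ (3 / 2 : ℝ)) 2, ← Real.rpow_mul (Nat.cast_nonneg d)]
  norm_num

/-- the absolute sum -/
theorem absd (h4 : S_var2) (h5 : S_Tqmean) (h7 : S_Tq) {s1 s2 cv Cv κ : ℝ} (hs1 : 0 < s1)
    (hCv : 0 < Cv)
    (hA : ∀ (σ : ℝ) (d : ℕ), 0 < σ → σ * d ≤ s2 →
      Adm (fun j x => (Tq (σ * j) x : ℝ)) (1 / σ) d cv Cv κ)
    {δ R : ℝ} (hδ : 0 < δ) (hR : 0 < R) (hR2 : Cv ≤ δ * (R ^ 2 * s1 ^ 2)) (B d : ℕ) (hd : 1 ≤ d)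
    (σ : ℝ) (hσ : 0 < σ) (h1 : s1 ≤ σ * d) (h2 : σ * d ≤ s2) :
    PP.real {ω | R * (d : ℝ) ^ (3 / 2 : ℝ) < |∑ j ∈ Finset.Ioc B d, ((j : ℝ) * |(geo σ ω j : ℝ)| -
      (j : ℝ) * (2 * Real.exp (-(σ * j)) / (1 - Real.exp (-(2 * σ * j)))))|} ≤ δ := by
  have hd0 : (0 : ℝ) < d := by exact_mod_cast hd
  have hadm := hA σ d hσ h2
  have hpos : ∀ j ∈ Finset.Ioc B d, (0 : ℝ) < j := fun j hj => by
    have : 0 < j := by have := (Finset.mem_Ioc.1 hj).1; omega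
    exact_mod_cast this
  have hmem : ∀ j ∈ Finset.Ioc B d, j ∈ Finset.Icc 1 d := fun j hj => by
    have := Finset.mem_Ioc.1 hj
    exact Finset.mem_Icc.2 ⟨by omega, this.2⟩
  have hTm : ∀ j ∈ Finset.Ioc B d, Measurable (fun x => (Tq (σ * j) x : ℝ)) := fun j hj =>
    (measurable_from_top (f := fun n : ℤ => (n : ℝ))).comp (h7 (σ * j) (mul_pos hσ (hpos j hj))).2.2.2.1
  have hm : ∀ j ∈ Finset.Ioc B d, Measurable (fun x => (j : ℝ) * |(Tq (σ * j) x : ℝ)|) :=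
    fun j hj => (((hTm j hj).abs).const_mul _)
  have hsq : ∀ j ∈ Finset.Ioc B d, Integrable (fun x => ((Tq (σ * j) x : ℝ)) ^ 2) lap := by
    intro j hj
    have h4' := hadm.int j (hmem j hj)
    refine ((integrable_const (1 : ℝ)).add h4').mono' ((hTm j hj).pow_const 2).aestronglyMeasurable
      (Eventually.of_forall fun x => ?_)
    rw [Real.norm_eq_abs, abs_of_nonneg (sq_nonneg _)]
    show ((Tq (σ * j) x : ℝ)) ^ 2 ≤ 1 + ((Tq (σ * j) x : ℝ)) ^ 4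
    nlinarith [sq_nonneg (((Tq (σ * j) x : ℝ)) ^ 2 - 1), sq_nonneg ((Tq (σ * j) x : ℝ))]
  have hint : ∀ j ∈ Finset.Ioc B d,
      Integrable (fun x => ((j : ℝ) * |(Tq (σ * j) x : ℝ)|) ^ 2) lap := by
    intro j hj
    refine ((hsq j hj).const_mul ((j : ℝ) ^ 2)).congr (Eventually.of_forall fun x => ?_)
    simp only [mul_pow, sq_abs]
  have ht : 0 < R * (d : ℝ) ^ (3 / 2 : ℝ) := by positivity
  have key := h4 (Finset.Ioc B d) (fun j x => (j : ℝ) * |(Tq (σ * j) x : ℝ)|) _ ht hm hint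
  have hmean : ∀ j ∈ Finset.Ioc B d, (∫ x, (j : ℝ) * |(Tq (σ * j) x : ℝ)| ∂lap) =
      (j : ℝ) * (2 * Real.exp (-(σ * j)) / (1 - Real.exp (-(2 * σ * j)))) := by
    intro j hj
    rw [integral_const_mul, h5 (σ * j) (mul_pos hσ (hpos j hj)), ← mul_assoc 2 σ (j : ℝ)]
  have hvar : ∀ j ∈ Finset.Ioc B d, (∫ x, ((j : ℝ) * |(Tq (σ * j) x : ℝ)|) ^ 2 ∂lap) ≤
      Cv / σ ^ 2 := by
    intro j hj
    have e1 : (∫ x, ((j : ℝ) * |(Tq (σ * j) x : ℝ)|) ^ 2 ∂lap) =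
        (j : ℝ) ^ 2 * ∫ x, ((Tq (σ * j) x : ℝ)) ^ 2 ∂lap := by
      rw [← integral_const_mul]
      refine integral_congr_ae (Eventually.of_forall fun x => ?_)
      simp only [mul_pow, sq_abs]
    have e2 := hadm.hi j (hmem j hj)
    have hj0 := hpos j hj
    rw [e1]
    calc (j : ℝ) ^ 2 * ∫ x, ((Tq (σ * j) x : ℝ)) ^ 2 ∂lap
        ≤ (j : ℝ) ^ 2 * (Cv * (1 / σ) ^ 2 / (j : ℝ) ^ 2) :=
          mul_le_mul_of_nonneg_left e2 (by positivity)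
      _ = Cv / σ ^ 2 := by field_simp
  have hsum : (∑ j ∈ Finset.Ioc B d, ∫ x, ((j : ℝ) * |(Tq (σ * j) x : ℝ)|) ^ 2 ∂lap) ≤
      d * (Cv / σ ^ 2) := by
    refine (Finset.sum_le_card_nsmul _ _ _ hvar).trans ?_
    rw [nsmul_eq_mul, Nat.card_Ioc]
    refine mul_le_mul_of_nonneg_right ?_ (by positivity)
    exact_mod_cast Nat.sub_le d B
  have hbound : (∑ j ∈ Finset.Ioc B d, ∫ x, ((j : ℝ) * |(Tq (σ * j) x : ℝ)|) ^ 2 ∂lap) /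
      (R * (d : ℝ) ^ (3 / 2 : ℝ)) ^ 2 ≤ δ := by
    rw [div_le_iff₀ (by positivity), sq32]
    refine hsum.trans ?_
    have h3 : s1 ^ 2 ≤ (σ * d) ^ 2 := by
      exact pow_le_pow_left₀ hs1.le h1 2
    have h4 : Cv ≤ δ * (R ^ 2 * (σ * d) ^ 2) :=
      hR2.trans (mul_le_mul_of_nonneg_left (mul_le_mul_of_nonneg_left h3 (by positivity)) hδ.le)
    calc (d : ℝ) * (Cv / σ ^ 2) = Cv * (d / σ ^ 2) := by ring
      _ ≤ δ * (R ^ 2 * (σ * d) ^ 2) * (d / σ ^ 2) :=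
          mul_le_mul_of_nonneg_right h4 (by positivity)
      _ = δ * (R ^ 2 * (d : ℝ) ^ 3) := by field_simp
  refine le_trans ?_ (key.trans hbound)
  refine measureReal_mono ?_
  intro ω hω
  show R * (d : ℝ) ^ (3 / 2 : ℝ) ≤ |∑ j ∈ Finset.Ioc B d, ((j : ℝ) * |(Tq (σ * j) (ω j) : ℝ)| -
    ∫ x, (j : ℝ) * |(Tq (σ * j) x : ℝ)| ∂lap)|
  rw [Finset.sum_congr rfl fun j hj => by rw [hmean j hj]]
  exact le_of_lt hω

theorem gp_mid2 (h1 : S_mid2a) (h2 : S_mid2b) (h3 : S_IPc) (h4 : S_var2) (h5 : S_Tqmean)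
    (h6 : S_AdmGeo) (h7 : S_Tq) : Pool.Agent.H174.GP.S_mid2 := by
  intro s1 s2 hs1 hs2
  obtain ⟨c, hc, hIP⟩ := h3 s1 s2 hs1 hs2
  refine ⟨c, hc, fun η C1 hη hη4 hC1 => ?_⟩
  obtain ⟨c3, hc3, d1, hd1⟩ := h1 s1 s2 η C1 hs1 hs2 hη hη4 hC1
  obtain ⟨R0, hR0, d2, hd2⟩ := h2 s1 s2 η (c3 / 8) hs1 hs2 hη hη4 (by positivity)
  obtain ⟨d3, hd3⟩ := hIP (c3 / 8) (by positivity)
  obtain ⟨cv, hcv, Cv, hCv, κ, hκ, hA⟩ := h6 s2 hs2
  let R : ℝ := max R0 (Real.sqrt (8 * Cv / (c3 * s1 ^ 2)))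
  have hR : 0 < R := lt_of_lt_of_le hR0 (le_max_left _ _)
  have hR2 : Cv ≤ c3 / 8 * (R ^ 2 * s1 ^ 2) := by
    have e1 : Real.sqrt (8 * Cv / (c3 * s1 ^ 2)) ^ 2 ≤ R ^ 2 :=
      pow_le_pow_left₀ (Real.sqrt_nonneg _) (le_max_right _ _) 2
    rw [Real.sq_sqrt (by positivity)] at e1
    calc Cv = c3 / 8 * ((8 * Cv / (c3 * s1 ^ 2)) * s1 ^ 2) := by field_simp
      _ ≤ _ := mul_le_mul_of_nonneg_left (mul_le_mul_of_nonneg_right e1 (by positivity))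
        (by positivity)
  refine ⟨R, hR, 5 * c3 / 8, by positivity, max (max d1 d2) (max d3 8), fun d hd σ hσ hσ1 hσ2 => ?_⟩
  have g1 := hd1 d (le_trans (le_trans (le_max_left _ _) (le_max_left _ _)) hd) σ hσ hσ1 hσ2
  have g2 := hd2 d (le_trans (le_trans (le_max_right _ _) (le_max_left _ _)) hd) σ hσ hσ1 hσ2
  have g3 := hd3 d (le_trans (le_trans (le_max_left _ _) (le_max_right _ _)) hd) σ hσ hσ1 hσ2
  have hd8 : 8 ≤ d := le_trans (le_trans (le_max_right _ _) (le_max_right _ _)) hd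
  have g4 := absd h4 h5 h7 hs1 hCv hA (δ := c3 / 8) (by positivity) hR hR2 ⌊η * d⌋₊ d (by omega)
    σ hσ hσ1 hσ2
  have hsub : {ω | C1 * Real.sqrt d ≤ ∑ j ∈ Finset.Ioc ⌊η * d⌋₊ d, (geo σ ω j : ℝ)} ⊆
      ((MiE d σ η C1 R c ∪ {ω | ∃ k ∈ Finset.Icc 1 d, R0 * (d : ℝ) ^ (3 / 2 : ℝ) <
        |∑ j ∈ Finset.Ioc ⌊η * d⌋₊ d, ((min j k : ℕ) : ℝ) * (X0 (d / 3) σ ω j : ℝ)|}) ∪
      {ω | ((IP (d / 3) σ ω).card : ℝ) < c * d}) ∪
      {ω | R * (d : ℝ) ^ (3 / 2 : ℝ) < |∑ j ∈ Finset.Ioc ⌊η * d⌋₊ d,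
        ((j : ℝ) * |(geo σ ω j : ℝ)| -
          (j : ℝ) * (2 * Real.exp (-(σ * j)) / (1 - Real.exp (-(2 * σ * j)))))|} := by
    intro ω hω
    by_contra hcon
    rw [Set.mem_union, Set.mem_union, Set.mem_union, not_or, not_or, not_or] at hcon
    obtain ⟨⟨⟨k1, k2⟩, k3⟩, k4⟩ := hcon
    apply k1
    refine ⟨?_, fun k hk => ?_, not_lt.1 k4, not_lt.1 k3⟩
    · have e := sum_X0 (d / 3) ⌊η * d⌋₊ d (floor_le hη4 hd8) (by omega) σ ω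
      have e' : ∑ j ∈ Finset.Ioc ⌊η * d⌋₊ d, (X0 (d / 3) σ ω j : ℝ) =
          ∑ j ∈ Finset.Ioc ⌊η * d⌋₊ d, (geo σ ω j : ℝ) := by exact_mod_cast e
      rw [e']
      exact hω
    · have hk2 : ¬ (R0 * (d : ℝ) ^ (3 / 2 : ℝ) <
          |∑ j ∈ Finset.Ioc ⌊η * d⌋₊ d, ((min j k : ℕ) : ℝ) * (X0 (d / 3) σ ω j : ℝ)|) :=
        fun h => k2 ⟨k, hk, h⟩
      refine (not_lt.1 hk2).trans ?_
      exact mul_le_mul_of_nonneg_right (le_max_left _ _) (by positivity)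
  have hle := measureReal_mono (μ := PP) hsub
  have hu1 := measureReal_union_le (μ := PP) ((MiE d σ η C1 R c ∪
    {ω | ∃ k ∈ Finset.Icc 1 d, R0 * (d : ℝ) ^ (3 / 2 : ℝ) <
        |∑ j ∈ Finset.Ioc ⌊η * d⌋₊ d, ((min j k : ℕ) : ℝ) * (X0 (d / 3) σ ω j : ℝ)|}) ∪
      {ω | ((IP (d / 3) σ ω).card : ℝ) < c * d})
      {ω | R * (d : ℝ) ^ (3 / 2 : ℝ) < |∑ j ∈ Finset.Ioc ⌊η * d⌋₊ d,
        ((j : ℝ) * |(geo σ ω j : ℝ)| -
          (j : ℝ) * (2 * Real.exp (-(σ * j)) / (1 - Real.exp (-(2 * σ * j)))))|}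
  have hu2 := measureReal_union_le (μ := PP) (MiE d σ η C1 R c ∪
    {ω | ∃ k ∈ Finset.Icc 1 d, R0 * (d : ℝ) ^ (3 / 2 : ℝ) <
        |∑ j ∈ Finset.Ioc ⌊η * d⌋₊ d, ((min j k : ℕ) : ℝ) * (X0 (d / 3) σ ω j : ℝ)|})
      {ω | ((IP (d / 3) σ ω).card : ℝ) < c * d}
  have hu3 := measureReal_union_le (μ := PP) (MiE d σ η C1 R c)
    {ω | ∃ k ∈ Finset.Icc 1 d, R0 * (d : ℝ) ^ (3 / 2 : ℝ) <
        |∑ j ∈ Finset.Ioc ⌊η * d⌋₊ d, ((min j k : ℕ) : ℝ) * (X0 (d / 3) σ ω j : ℝ)|}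
  linarith

end Pool.Agent.H588.GP174
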